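import Pool.Agent.Q260.DJ.Stm
import Pool.Agent.H24R2.JP.B1
import Pool.Agent.H24R2.JP.Zeros
import Pool.Agent.H24R2.JP.XiFinal

/-!
# Project DJ (helper260), job GL: the global form
-/

set_option autoImplicit false

namespace Pool.Agent.Q285.DJ

open Complex Filter Topology Metric Set
open Pool.Agent.Q260.DJ
open Pool.Agent.H24R2.JP (HH XX FF gam jensen Hyperbolic Om Par xi)
open Pool.Agent.H24R2.JP.B1h (XX_diff XX_conj)
open Pool.Agent.H24R2.JP.Zer (XX_eq completed_zero)

/-- the zeros of an entire function in a compact set -/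
theorem fin_zeros {G : ℂ → ℂ} (hG : Differentiable ℂ G) (h1 : G 1 ≠ 0) {K : Set ℂ}
    (hK : IsCompact K) : {z : ℂ | z ∈ K ∧ G z = 0}.Finite := by
  by_contra hinf
  obtain ⟨x, hxK, hacc⟩ := Set.Infinite.exists_accPt_of_subset_isCompact hinf hK
    (fun z hz => hz.1)
  rw [accPt_iff_frequently] at hacc
  have hfreq : ∃ᶠ z in 𝓝[≠] x, G z = 0 := by
    rw [frequently_nhdsWithin_iff]
    exact hacc.mono fun z hz => ⟨hz.2.2, hz.1⟩
  have han : AnalyticOnNhd ℂ G univ := fun z _ => hG.analyticAt z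
  have h2 := han.eqOn_zero_of_preconnected_of_frequently_eq_zero isPreconnected_univ (mem_univ x) hfreq
  exact h1 (h2 (mem_univ 1))

/-- symmetry of the iterated derivatives -/
theorem iter_conj (n : ℕ) (z : ℂ) : iteratedDeriv n XX ((starRingEnd ℂ) z) =
    (starRingEnd ℂ) (iteratedDeriv n XX z) := by
  have h : ∀ n : ℕ, (starRingEnd ℂ) ∘ iteratedDeriv n XX ∘ (starRingEnd ℂ) = iteratedDeriv n XX := by
    intro n
    induction n with
    | zero =>
      funext w
      rw [iteratedDeriv_zero]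
      simp only [Function.comp]
      rw [XX_conj, Complex.conj_conj]
    | succ n ih =>
      rw [iteratedDeriv_succ]
      conv_rhs => rw [← ih]
      rw [deriv_conj_conj]
  have h1 := congrFun (h n) z
  simp only [Function.comp] at h1
  rw [← h1, Complex.conj_conj]

theorem iter_diff (n : ℕ) : Differentiable ℂ (iteratedDeriv n XX) := by
  have h : ContDiff ℂ (n + 1 : ℕ) XX := XX_diff.contDiff
  exact h.differentiable_iteratedDeriv n (by exact_mod_cast Nat.lt_succ_self n)

/-- finitely many zeros to the right of `σ`: no zeros at large heights -/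
theorem fin_iff {G : ℂ → ℂ} (hG : Differentiable ℂ G)
    (hc : ∀ z, G ((starRingEnd ℂ) z) = (starRingEnd ℂ) (G z)) (hs : ∀ z, G z = 0 → |z.re| ≤ 1 / 2)
    (σ : ℝ) : {z : ℂ | σ < z.re ∧ G z = 0}.Finite ↔
      ∃ T : ℝ, ∀ z : ℂ, G z = 0 → T ≤ z.im → z.re ≤ σ := by
  constructor
  · intro h
    obtain ⟨T, hT⟩ := (h.image Complex.im).bddAbove
    refine ⟨T + 1, fun z hz hzT => ?_⟩
    by_contra hσ
    have h1 := hT ⟨z, ⟨not_le.1 hσ, hz⟩, rfl⟩
    linarith
  · rintro ⟨T, hT⟩
    have h1 : G 1 ≠ 0 := by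
      intro h
      have := hs 1 h
      rw [Complex.one_re, abs_one] at this
      norm_num at this
    have hK : IsCompact (Icc (-(1 / 2) : ℝ) (1 / 2) ×ℂ Icc (-T) T) :=
      isCompact_Icc.reProdIm isCompact_Icc
    refine (fin_zeros hG h1 hK).subset ?_
    rintro z ⟨hz1, hz2⟩
    refine ⟨?_, hz2⟩
    rw [Complex.mem_reProdIm, mem_Icc, mem_Icc]
    refine ⟨abs_le.1 (hs z hz2), ?_, ?_⟩
    · by_contra h
      have h2 := hT ((starRingEnd ℂ) z) (by rw [hc, hz2, map_zero]) (by
        rw [Complex.conj_im]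
        linarith)
      rw [Complex.conj_re] at h2
      linarith
    · by_contra h
      have h2 := hT z hz2 (by linarith)
      linarith

/-- the zeros of the zeta function to the right of the line -/
theorem zeta_iff {s : ℂ} (hs : 1 / 2 < s.re) : riemannZeta s = 0 ↔ XX (s - 1 / 2) = 0 := by
  have hs0 : s ≠ 0 := by
    rintro rfl
    rw [Complex.zero_re] at hs
    norm_num at hs
  have e : (1 / 2 + (s - 1 / 2) : ℂ) = s := by ring
  constructor
  · intro h
    have hs1 : s ≠ 1 := by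
      rintro rfl
      exact riemannZeta_one_ne_zero h
    rw [XX_eq (s - 1 / 2) (by rw [e]; exact hs0) (by rw [e]; exact sub_ne_zero.2 hs1.symm), e]
    rw [riemannZeta_def_of_ne_zero hs0] at h
    rcases div_eq_zero_iff.1 h with h1 | h1
    · rw [h1, mul_zero]
    · exact absurd h1 (Gammaℝ_ne_zero_of_re_pos (by linarith))
  · intro h
    obtain ⟨-, -, h3⟩ := completed_zero _ h
    rw [e] at h3
    rw [riemannZeta_def_of_ne_zero hs0, h3, zero_div]

/-- translation of finiteness -/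
theorem fin_shift {F G : ℂ → ℂ} {τ : ℝ} (h : ∀ s : ℂ, τ < s.re → (F s = 0 ↔ G (s - 1 / 2) = 0)) :
    {s : ℂ | τ < s.re ∧ F s = 0}.Finite ↔ {z : ℂ | τ - 1 / 2 < z.re ∧ G z = 0}.Finite := by
  have hh : ((1 / 2 : ℂ)).re = 1 / 2 := by norm_num
  constructor
  · intro hf
    refine (hf.image fun s => s - 1 / 2).subset ?_
    rintro z ⟨hz1, hz2⟩
    have hre : (z + 1 / 2 : ℂ).re = z.re + 1 / 2 := by rw [Complex.add_re, hh]
    refine ⟨z + 1 / 2, ⟨by rw [hre]; linarith, ?_⟩, by ring⟩
    rw [h _ (by rw [hre]; linarith), add_sub_cancel_right]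
    exact hz2
  · intro hf
    refine (hf.image fun z => z + 1 / 2).subset ?_
    rintro s ⟨hs1, hs2⟩
    refine ⟨s - 1 / 2, ⟨?_, (h s hs1).1 hs2⟩, by ring⟩
    rw [Complex.sub_re, hh]
    linarith

theorem log_small (C T : ℝ) : ∃ T' : ℝ, ∀ x : ℝ, T' ≤ x → T ≤ x - C * Real.log x := by
  have h1 := (Real.isLittleO_log_id_atTop.bound (c := 1 / (2 * (|C| + 1))) (by positivity))
  obtain ⟨T', hT'⟩ := eventually_atTop.1 h1
  refine ⟨max T' (max 1 (2 * |T|)), fun x hx => ?_⟩
  have hx1 := (le_max_left _ _).trans hx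
  have hx2 := ((le_max_left _ _).trans (le_max_right _ _)).trans hx
  have hx3 := ((le_max_right _ _).trans (le_max_right _ _)).trans hx
  have h2 := hT' x hx1
  rw [Real.norm_eq_abs, Real.norm_eq_abs, id, abs_of_nonneg (Real.log_nonneg hx2),
    abs_of_pos (by linarith : (0 : ℝ) < x)] at h2
  have h3 : C * Real.log x ≤ x / 2 := by
    have h4 : C * Real.log x ≤ (|C| + 1) * Real.log x :=
      mul_le_mul_of_nonneg_right (by linarith [le_abs_self C]) (Real.log_nonneg hx2)
    have h5 : (|C| + 1) * Real.log x ≤ (|C| + 1) * (1 / (2 * (|C| + 1)) * x) :=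
      mul_le_mul_of_nonneg_left h2 (by positivity)
    have h6 : (|C| + 1) * (1 / (2 * (|C| + 1)) * x) = x / 2 := by
      have : |C| + 1 ≠ 0 := by positivity
      field_simp
    linarith
  have h7 := le_abs_self T
  linarith

theorem t_GL (h1 : S_DI) (h2 : S_ID) (h3 : S_SP) : S_GL := by
  intro n θ hθ
  have hIt : It (List.replicate n false) = iteratedDeriv n XX := funext (h2.1 n)
  have hXs : ∀ z, XX z = 0 → |z.re| ≤ 1 / 2 := fun z hz => h3 0 z (by rw [iteratedDeriv_zero]; exact hz)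
  have eA : ∀ ε : ℝ, 0 < ε → ({s : ℂ | θ + ε < s.re ∧ iteratedDeriv n xi s = 0}.Finite ↔
      ∃ T : ℝ, ∀ z : ℂ, iteratedDeriv n XX z = 0 → T ≤ z.im → z.re ≤ θ + ε - 1 / 2) := by
    intro ε hε
    rw [fin_shift (G := iteratedDeriv n XX), fin_iff (iter_diff n) (iter_conj n) (h3 n)]
    intro s _
    rw [Pool.Agent.H24R2.JP.XiFin.iter_xi, mul_eq_zero]
    constructor
    · rintro (h | h)
      · norm_num at h
      · exact h
    · exact Or.inr
  have eB : ∀ ε : ℝ, 0 < ε → ({s : ℂ | θ + ε < s.re ∧ riemannZeta s = 0}.Finite ↔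
      ∃ T : ℝ, ∀ z : ℂ, XX z = 0 → T ≤ z.im → z.re ≤ θ + ε - 1 / 2) := by
    intro ε hε
    rw [fin_shift (G := XX), fin_iff XX_diff XX_conj hXs]
    intro s hs
    exact zeta_iff (by linarith)
  unfold AlmostFree
  constructor
  · intro h ε hε
    rw [eB ε hε]
    obtain ⟨T, hT⟩ := (eA (ε / 2) (by linarith)).1 (h (ε / 2) (by linarith))
    obtain ⟨C, T0, hC, hT0, d1, -⟩ := h1 (List.replicate n false) (ε / 2) (by linarith)
    obtain ⟨T', hT'⟩ := log_small C T
    refine ⟨max T0 T', fun z hz hzT => ?_⟩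
    by_contra hcon
    push Not at hcon
    obtain ⟨w, hw1, hw2, hw3⟩ := d1 z (θ + ε / 2 - 1 / 2) hz ((le_max_left _ _).trans hzT)
      (by linarith) (by linarith)
    rw [hIt] at hw1
    have h4 := hT' z.im ((le_max_right _ _).trans hzT)
    have h5 := (abs_le.1 hw3).1
    have h6 := hT w hw1 (by linarith)
    linarith
  · intro h ε hε
    rw [eA ε hε]
    obtain ⟨T, hT⟩ := (eB (ε / 2) (by linarith)).1 (h (ε / 2) (by linarith))
    obtain ⟨C, T0, hC, hT0, -, d2⟩ := h1 (List.replicate n false) (ε / 2) (by linarith)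
    refine ⟨max T0 (T + C), fun z hz hzT => ?_⟩
    by_contra hcon
    push Not at hcon
    obtain ⟨w, hw1, hw2, hw3⟩ := d2 z (θ + ε / 2 - 1 / 2) (by rw [hIt]; exact hz)
      ((le_max_left _ _).trans hzT) (by linarith) (by linarith) ((le_abs_self _).trans (h3 n z hz))
    have h4 := (le_max_right _ _).trans hzT
    have h5 := (abs_le.1 hw3).1
    have h6 := hT w hw1 (by linarith)
    linarith

end Pool.Agent.Q285.DJ
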