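import Pool.Agent.Q260.DJ.Stm
import Pool.Agent.H24R2.JP.B1

/-!
# Project DJ (helper260), job ID: the iterated operators are iterated derivatives
-/

set_option autoImplicit false

namespace Pool.Agent.Q285.DJ

open Complex Filter Topology Metric Set
open Pool.Agent.Q260.DJ
open Pool.Agent.H24R2.JP (HH XX FF gam jensen Hyperbolic Om Par xi b1)

theorem FF_diff (n : ℕ) : Differentiable ℂ (iteratedDeriv n FF) := by
  have h : ContDiff ℂ (n + 1 : ℕ) FF := b1.1.contDiff
  exact h.differentiable_iteratedDeriv n (by exact_mod_cast Nat.lt_succ_self n)

theorem t_ID : S_ID := by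
  constructor
  · intro n
    induction n with
    | zero =>
      intro z
      rw [iteratedDeriv_zero]
      rfl
    | succ n ih =>
      intro z
      have h1 : It (List.replicate n false) = iteratedDeriv n XX := funext ih
      have h2 : It (List.replicate (n + 1) false) z = deriv (It (List.replicate n false)) z := rfl
      rw [h2, h1, iteratedDeriv_succ]
  · intro n
    induction n with
    | zero =>
      intro z _
      rw [iteratedDeriv_zero, b1.2.1]
      rfl
    | succ n ih =>
      intro z hz
      have h2 : It (List.replicate (n + 1) true) z = deriv (It (List.replicate n true)) z / (2 * z) :=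
        rfl
      have h3 : It (List.replicate n true) =ᶠ[𝓝 z] fun z => iteratedDeriv n FF (z ^ 2) := by
        filter_upwards [isOpen_ne.mem_nhds hz] with w hw
        exact ih w hw
      have h4 : HasDerivAt (fun z : ℂ => iteratedDeriv n FF (z ^ 2))
          (deriv (iteratedDeriv n FF) (z ^ 2) * (2 * z)) z := by
        have e1 : HasDerivAt (iteratedDeriv n FF) (deriv (iteratedDeriv n FF) (z ^ 2)) (z ^ 2) :=
          (FF_diff n _).hasDerivAt
        have e2 : HasDerivAt (fun z : ℂ => z ^ 2) (2 * z) z := by simpa using hasDerivAt_pow 2 z
        exact HasDerivAt.comp z e1 e2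
      rw [h2, h3.deriv_eq, h4.deriv, iteratedDeriv_succ, mul_div_assoc,
        div_self (mul_ne_zero two_ne_zero hz), mul_one]

end Pool.Agent.Q285.DJ
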