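import Pool.Agent.Q260.DJ.Stm
import Pool.Agent.H24R2.JP.All2

/-!
# Project DJ (helper260), job SP: the zeros of the derivatives lie in the strip
-/

set_option autoImplicit false

namespace Pool.Agent.Q285.DJ

open Complex Filter Topology Metric Set
open Pool.Agent.Q260.DJ
open Pool.Agent.H24R2.JP (HH XX FF gam jensen Hyperbolic Om Par xi b1 Good TT TI opGood itGood parT
  goodT xder der gl)

theorem good_TI {b : ℝ} (hb : 0 < b) (m : ℕ) : ∀ f : ℂ → ℂ, Good f → Good (TI b m f) := by
  induction m with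
  | zero =>
    intro f hf
    exact hf
  | succ m ih =>
    intro f hf
    exact ih _ (opGood der f (b + m) hf (by positivity))

theorem par_re {z : ℂ} (h : z ^ 2 ∈ Par) : |z.re| ≤ 1 / 2 := by
  have hre : (z ^ 2).re = z.re ^ 2 - z.im ^ 2 := by rw [pow_two, Complex.mul_re]; ring
  have him : (z ^ 2).im = 2 * z.re * z.im := by rw [pow_two, Complex.mul_im]; ring
  have hp1 : (z ^ 2).re + (z ^ 2).im ^ 2 ≤ 1 / 4 := h
  rw [hre, him] at hp1
  have hs : z.re ^ 2 ≤ 1 / 4 := by
    have h : (z.re ^ 2 - 1 / 4) * (4 * z.im ^ 2 + 1) ≤ 0 := by nlinarith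
    by_contra hc
    push Not at hc
    have : 0 < (z.re ^ 2 - 1 / 4) * (4 * z.im ^ 2 + 1) := by
      apply mul_pos (by linarith) (by positivity)
    linarith
  exact abs_le_of_sq_le_sq (by linarith) (by norm_num)

theorem t_SP : S_SP := by
  intro n z hz
  have hg : ∀ k, Good (iteratedDeriv k FF) := fun k => itGood der gl FF k goodT
  rcases Nat.even_or_odd' n with ⟨m, hm | hm⟩
  · subst hm
    rw [(xder b1 m z).1] at hz
    rcases mul_eq_zero.1 hz with h | h
    · exact absurd h (pow_ne_zero _ (by norm_num))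
    · exact par_re (parT _ (good_TI (b := 1 / 2) (by norm_num) m _ (hg m)) 0 (z ^ 2) (by
        rw [iteratedDeriv_zero]
        exact h))
  · subst hm
    rw [(xder b1 m z).2] at hz
    rcases mul_eq_zero.1 hz with h | h
    · have h24 : (2 * 4 ^ m : ℂ) ≠ 0 := mul_ne_zero two_ne_zero (pow_ne_zero _ (by norm_num))
      rcases mul_eq_zero.1 h with h | h
      · exact absurd h h24
      · rw [h]
        norm_num
    · exact par_re (parT _ (good_TI (b := 3 / 2) (by norm_num) m _ (hg (m + 1))) 0 (z ^ 2) (by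
        rw [iteratedDeriv_zero]
        exact h))

end Pool.Agent.Q285.DJ
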